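import Pool.Agent.Y921.FE.Core

/-!
# The determinant as a polynomial with coefficients in a space of dimension at most `(d (m + 1)) ^ 2`
-/

set_option autoImplicit false

open Module

namespace Pool.Agent.Y921.FE

variable {σ : Type*} [Fintype σ]

theorem finrank_mul_le (M N : Submodule ℚ ℂ) [Module.Finite ℚ M] [Module.Finite ℚ N] :
    Module.Finite ℚ (M * N : Submodule ℚ ℂ) ∧ finrank ℚ (M * N : Submodule ℚ ℂ) ≤ finrank ℚ M * finrank ℚ N := by
  rw [← Submodule.mulMap_range, ← Module.finrank_tensorProduct (R := ℚ)]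
  exact ⟨inferInstance, LinearMap.finrank_range_le _⟩

/-- the space `K + V` over `ℚ` -/
noncomputable def V1 (K : IntermediateField ℚ ℂ) (V : Submodule K ℂ) : Submodule ℚ ℂ :=
  V.restrictScalars ℚ ⊔ Subalgebra.toSubmodule K.toSubalgebra

theorem V1_fin (K : IntermediateField ℚ ℂ) [FiniteDimensional ℚ K] (V : Submodule K ℂ) [Module.Finite K V] (d m : ℕ)
    (hd : finrank ℚ K ≤ d) (hm : finrank K V ≤ m) : Module.Finite ℚ (V1 K V) ∧ finrank ℚ (V1 K V) ≤ d * (m + 1) := by
  have hV : Module.Finite ℚ (V.restrictScalars ℚ : Submodule ℚ ℂ) := by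
    have : Module.Finite ℚ V := Module.Finite.trans K V
    exact this
  have hK : Module.Finite ℚ (Subalgebra.toSubmodule K.toSubalgebra : Submodule ℚ ℂ) := by
    have : Module.Finite ℚ K := inferInstance
    exact this
  have h1 : finrank ℚ (V.restrictScalars ℚ : Submodule ℚ ℂ) = finrank ℚ K * finrank K V := by
    have := Module.finrank_mul_finrank ℚ K V
    exact this.symm
  have h2 : finrank ℚ (Subalgebra.toSubmodule K.toSubalgebra : Submodule ℚ ℂ) = finrank ℚ K := rfl
  refine ⟨by unfold V1; infer_instance, ?_⟩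
  calc finrank ℚ (V1 K V) ≤ finrank ℚ (V.restrictScalars ℚ : Submodule ℚ ℂ) +
        finrank ℚ (Subalgebra.toSubmodule K.toSubalgebra : Submodule ℚ ℂ) := Submodule.finrank_add_le_finrank_add_finrank _ _
    _ = finrank ℚ K * finrank K V + finrank ℚ K := by rw [h1, h2]
    _ ≤ d * m + d := Nat.add_le_add (Nat.mul_le_mul hd hm) hd
    _ = d * (m + 1) := by ring

open MvPolynomial in
/-- a linear form -/
noncomputable def Lf (K : IntermediateField ℚ ℂ) (w : ℂ) (c : σ → K) : MvPolynomial σ ℂ :=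
  C w + ∑ p, C (c p : ℂ) * X p

open MvPolynomial in
theorem Lf_deg (K : IntermediateField ℚ ℂ) (w : ℂ) (c : σ → K) : (Lf K w c).totalDegree ≤ 1 := by
  unfold Lf
  refine (totalDegree_add _ _).trans (max_le (by simp) ?_)
  refine totalDegree_finsetSum_le fun p _ => ?_
  refine (totalDegree_mul _ _).trans ?_
  simp

open MvPolynomial in
theorem Lf_coeff (K : IntermediateField ℚ ℂ) (V : Submodule K ℂ) (w : ℂ) (hw : w ∈ V) (c : σ → K) (s : σ →₀ ℕ) :
    (Lf K w c).coeff s ∈ V1 K V := by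
  classical
  have hV : ∀ x ∈ V, x ∈ V1 K V := fun x hx => Submodule.mem_sup_left (by simpa using hx)
  have hK : ∀ x : K, (x : ℂ) ∈ V1 K V := fun x => Submodule.mem_sup_right (by simp)
  unfold Lf
  rw [coeff_add, coeff_sum]
  refine Submodule.add_mem _ ?_ (Submodule.sum_mem _ fun p _ => ?_)
  · rw [coeff_C]
    split_ifs
    · exact hV w hw
    · exact Submodule.zero_mem _
  · rw [coeff_C_mul, coeff_X']
    split_ifs
    · rw [mul_one]; exact hK _
    · rw [mul_zero]; exact Submodule.zero_mem _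

open MvPolynomial in
theorem Lf_aeval (K : IntermediateField ℚ ℂ) (w : ℂ) (c : σ → K) (x : σ → ℂ) :
    aeval x (Lf K w c) = w + ∑ p, c p • x p := by
  simp [Lf, Algebra.smul_def]

/-- the determinant polynomial -/
noncomputable def DP (K : IntermediateField ℚ ℂ) (w : Fin 2 → Fin 2 → ℂ) (c : Fin 2 → Fin 2 → σ → K) : MvPolynomial σ ℂ :=
  Lf K (w 0 0) (c 0 0) * Lf K (w 1 1) (c 1 1) - Lf K (w 0 1) (c 0 1) * Lf K (w 1 0) (c 1 0)

theorem DP_aeval (K : IntermediateField ℚ ℂ) (w : Fin 2 → Fin 2 → ℂ) (c : Fin 2 → Fin 2 → σ → K) (x : σ → ℂ) :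
    MvPolynomial.aeval x (DP K w c) = D w c x := by
  simp only [DP, D, map_sub, map_mul, Lf_aeval]

open MvPolynomial in
theorem DP_deg (K : IntermediateField ℚ ℂ) (w : Fin 2 → Fin 2 → ℂ) (c : Fin 2 → Fin 2 → σ → K) :
    (DP K w c).totalDegree ≤ 2 := by
  unfold DP
  refine (totalDegree_sub _ _).trans (max_le ?_ ?_)
  · exact (totalDegree_mul _ _).trans (Nat.add_le_add (Lf_deg _ _ _) (Lf_deg _ _ _))
  · exact (totalDegree_mul _ _).trans (Nat.add_le_add (Lf_deg _ _ _) (Lf_deg _ _ _))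

open MvPolynomial in
theorem DP_coeff (K : IntermediateField ℚ ℂ) (V : Submodule K ℂ) (w : Fin 2 → Fin 2 → ℂ) (hw : ∀ i j, w i j ∈ V)
    (c : Fin 2 → Fin 2 → σ → K) (s : σ →₀ ℕ) : (DP K w c).coeff s ∈ V1 K V * V1 K V := by
  classical
  have h : ∀ i j i' j', (Lf K (w i j) (c i j) * Lf K (w i' j') (c i' j')).coeff s ∈ V1 K V * V1 K V := by
    intro i j i' j'
    rw [coeff_mul]
    exact Submodule.sum_mem _ fun p _ => Submodule.mul_mem_mul (Lf_coeff K V _ (hw i j) _ _) (Lf_coeff K V _ (hw i' j') _ _)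
  unfold DP
  rw [coeff_sub]
  exact Submodule.sub_mem _ (h _ _ _ _) (h _ _ _ _)

end Pool.Agent.Y921.FE
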