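import Pool.Agent.Y921.FE.Core

/-!
# The matrix form of the four exponentials property
-/

set_option autoImplicit false

open Module

namespace Pool.Agent.Y921.FE

variable {K A σ : Type*} [Field K] [Field A] [CharZero A] [Algebra K A] [Fintype σ]

theorem Good.det_ne_zero {V : Submodule K A} {l : σ → A} (h : Good V l) (M : Matrix (Fin 2) (Fin 2) A)
    (hM : ∀ i j, M i j ∈ V ⊔ Submodule.span K (Set.range l)) (hne : ∃ i j, M i j ∉ V)
    (hrow : LinearIndependent K (fun i : Fin 2 => fun j : Fin 2 => M i j))
    (hcol : LinearIndependent K (fun j : Fin 2 => fun i : Fin 2 => M i j)) : M.det ≠ 0 := by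
  intro hdet
  obtain ⟨i0, j0, hij⟩ := hne
  have h0 : M i0 j0 ≠ 0 := fun h1 => hij (by rw [h1]; exact V.zero_mem)
  rw [Matrix.det_fin_two] at hdet
  have key : ∀ i j, M i j * M i0 j0 = M i j0 * M i0 j := by
    intro i j
    clear hij h0 h hM hrow hcol
    fin_cases i0 <;> fin_cases j0 <;> fin_cases i <;> fin_cases j <;>
      simp only [Fin.zero_eta, Fin.mk_one, Fin.isValue] <;>
      first | ring1 | linear_combination hdet | linear_combination -hdet
  set u : Fin 2 → A := fun i => M i j0 with hu
  set v : Fin 2 → A := fun j => M i0 j * (M i0 j0)⁻¹ with hv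
  have huv : ∀ i j, M i j = u i * v j := by
    intro i j
    simp only [hu, hv]
    rw [← mul_assoc, eq_mul_inv_iff_mul_eq₀ h0]
    exact key i j
  rw [Fintype.linearIndependent_iff] at hrow hcol
  have hui : LinearIndependent K u := by
    rw [Fintype.linearIndependent_iff]
    intro g hg
    apply hrow g
    funext j
    simp only [Finset.sum_apply, Pi.smul_apply, Pi.zero_apply]
    have : ∑ i, g i • M i j = (∑ i, g i • u i) * v j := by
      rw [Finset.sum_mul]
      exact Finset.sum_congr rfl fun i _ => by rw [huv i j, smul_mul_assoc]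
    rw [this, hg, zero_mul]
  have hvi : LinearIndependent K v := by
    rw [Fintype.linearIndependent_iff]
    intro g hg
    apply hcol g
    funext i
    simp only [Finset.sum_apply, Pi.smul_apply, Pi.zero_apply]
    have : ∑ j, g j • M i j = u i * (∑ j, g j • v j) := by
      rw [Finset.mul_sum]
      exact Finset.sum_congr rfl fun j _ => by rw [huv i j, mul_smul_comm]
    rw [this, hg, mul_zero]
  have := h.2 u v hui hvi (fun i j => by rw [← huv]; exact hM i j) i0 j0
  rw [← huv] at this
  exact hij this

end Pool.Agent.Y921.FE
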