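import Mathlib

/-!
# Four exponentials relative to a space, from the absence of quadratic relations
-/

set_option autoImplicit false

open Module

namespace Pool.Agent.Y921.FE

variable {K A σ : Type*} [Field K] [Field A] [CharZero A] [Algebra K A] [Fintype σ]

/-- the determinant of the matrix `(w i j + ∑ c i j p X p)` -/
def D (w : Fin 2 → Fin 2 → A) (c : Fin 2 → Fin 2 → σ → K) (X : σ → A) : A :=
  (w 0 0 + ∑ p, c 0 0 p • X p) * (w 1 1 + ∑ p, c 1 1 p • X p) -
    (w 0 1 + ∑ p, c 0 1 p • X p) * (w 1 0 + ∑ p, c 1 0 p • X p)

/-- two coefficients which annihilate an independent pair vanish -/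
theorem pair_indep {u : Fin 2 → A} (hu : LinearIndependent K u) {a b : K} (h : a • u 0 + b • u 1 = 0) :
    a = 0 ∧ b = 0 := by
  rw [Fintype.linearIndependent_iff] at hu
  have h1 := hu ![a, b] (by simpa [Fin.sum_univ_two] using h)
  exact ⟨by simpa using h1 0, by simpa using h1 1⟩

/-- a matrix `C` over `K` with `det C = 0` and `det (u v^T + C) = 0`, where `u` and `v` have independent coordinates, is zero -/
theorem det_zero {u v : Fin 2 → A} (hu : LinearIndependent K u) (hv : LinearIndependent K v) (c : Fin 2 → Fin 2 → K)
    (h0 : c 0 0 * c 1 1 = c 0 1 * c 1 0)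
    (hB : (c 1 1) • (u 0 * v 0) + (c 0 0) • (u 1 * v 1) - (c 1 0) • (u 0 * v 1) - (c 0 1) • (u 1 * v 0) = 0) :
    ∀ i j, c i j = 0 := by
  have e0 : algebraMap K A (c 0 0) * algebraMap K A (c 1 1) = algebraMap K A (c 0 1) * algebraMap K A (c 1 0) := by
    rw [← map_mul, ← map_mul, h0]
  simp only [Algebra.smul_def] at hB
  have hm : ∀ x y : A, x * y = 0 → x = 0 ∨ y = 0 := fun x y => mul_eq_zero.1
  have h00 : c 0 0 = 0 := by
    by_contra hne
    have e : ((c 1 0) • u 0 + (-(c 0 0)) • u 1) * ((c 0 1) • v 0 + (-(c 0 0)) • v 1) = 0 := by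
      simp only [Algebra.smul_def, map_neg]
      linear_combination (algebraMap K A (c 0 0)) * hB - (u 0 * v 0) * e0
    rcases hm _ _ e with h | h
    · exact hne (neg_eq_zero.1 (pair_indep hu h).2)
    · exact hne (neg_eq_zero.1 (pair_indep hv h).2)
  have h01 : c 0 1 = 0 := by
    by_contra hne
    have e : ((c 1 1) • u 0 + (-(c 0 1)) • u 1) * ((c 0 1) • v 0 + (-(c 0 0)) • v 1) = 0 := by
      simp only [Algebra.smul_def, map_neg]
      linear_combination (algebraMap K A (c 0 1)) * hB - (u 0 * v 1) * e0
    rcases hm _ _ e with h | h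
    · exact hne (neg_eq_zero.1 (pair_indep hu h).2)
    · exact hne ((pair_indep hv h).1)
  have h10 : c 1 0 = 0 := by
    by_contra hne
    have e : ((c 1 0) • u 0 + (-(c 0 0)) • u 1) * ((c 1 1) • v 0 + (-(c 1 0)) • v 1) = 0 := by
      simp only [Algebra.smul_def, map_neg]
      linear_combination (algebraMap K A (c 1 0)) * hB - (u 1 * v 0) * e0
    rcases hm _ _ e with h | h
    · exact hne ((pair_indep hu h).1)
    · exact hne (neg_eq_zero.1 (pair_indep hv h).2)
  have h11 : c 1 1 = 0 := by
    by_contra hne
    have e : ((c 1 1) • u 0 + (-(c 0 1)) • u 1) * ((c 1 1) • v 0 + (-(c 1 0)) • v 1) = 0 := by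
      simp only [Algebra.smul_def, map_neg]
      linear_combination (algebraMap K A (c 1 1)) * hB - (u 1 * v 1) * e0
    rcases hm _ _ e with h | h
    · exact hne ((pair_indep hu h).1)
    · exact hne ((pair_indep hv h).1)
  intro i j
  fin_cases i <;> fin_cases j
  · exact h00
  · exact h01
  · exact h10
  · exact h11

/-- the four exponentials property of `V + span l` relative to `V`, and independence of `l` modulo `V` -/
def Good (V : Submodule K A) (l : σ → A) : Prop :=
  finrank K (V ⊔ Submodule.span K (Set.range l) : Submodule K A) = finrank K V + Fintype.card σ ∧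
    ∀ u v : Fin 2 → A, LinearIndependent K u → LinearIndependent K v →
      (∀ i j, u i * v j ∈ V ⊔ Submodule.span K (Set.range l)) → ∀ i j, u i * v j ∈ V

theorem good_of (V : Submodule K A) [Module.Finite K V] (l : σ → A)
    (h : ∀ (w : Fin 2 → Fin 2 → A) (c : Fin 2 → Fin 2 → σ → K), (∀ i j, w i j ∈ V) → D w c l = 0 →
      ∀ X : σ → A, D w c X = 0) : Good V l := by
  classical
  -- linear relations
  have h1 : ∀ (w : A) (c : σ → K), w ∈ V → w + ∑ p, c p • l p = 0 → ∀ p, c p = 0 := by
    intro w c hw h0 p
    have h2 := h (fun i j => if i = j then w else 0) (fun i j p => if i = j then c p else 0)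
      (fun i j => by by_cases hij : i = j <;> simp [hij, hw]) (by simp [D, h0])
    have h3 := h2 (l + Pi.single p 1)
    simp only [D, if_true, Fin.zero_eta, Fin.mk_one, Fin.isValue, zero_ne_one, one_ne_zero, if_false, zero_smul,
      Finset.sum_const_zero, zero_add, mul_zero, sub_zero, Pi.add_apply, smul_add, Finset.sum_add_distrib] at h3
    have h4 : ∑ x, c x • (Pi.single p (1 : A) : σ → A) x = algebraMap K A (c p) := by
      rw [Finset.sum_eq_single p]
      · simp [Algebra.smul_def]
      · intro b _ hb
        simp [hb]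
      · simp
    rw [h4, ← add_assoc, h0, zero_add, mul_self_eq_zero] at h3
    exact (map_eq_zero _).1 h3
  have hli : LinearIndependent K l := by
    rw [Fintype.linearIndependent_iff]
    intro g hg
    exact h1 0 g V.zero_mem (by rw [zero_add, hg])
  have hdis : V ⊓ Submodule.span K (Set.range l) = ⊥ := by
    rw [Submodule.eq_bot_iff]
    rintro x ⟨hxV, hxS⟩
    obtain ⟨c, hc⟩ := (Submodule.mem_span_range_iff_exists_fun K).1 hxS
    have h2 := h1 (-x) c (V.neg_mem hxV) (by rw [hc]; ring)
    rw [← hc]
    exact Finset.sum_eq_zero fun p _ => by rw [h2 p, zero_smul]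
  refine ⟨?_, ?_⟩
  · have hf : Module.Finite K (Submodule.span K (Set.range l)) := FiniteDimensional.span_of_finite K (Set.finite_range l)
    have h2 := Submodule.finrank_sup_add_finrank_inf_eq V (Submodule.span K (Set.range l))
    rw [hdis, finrank_bot, add_zero, finrank_span_eq_card hli] at h2
    exact h2
  · intro u v hu hv huv
    have h2 : ∀ i j, ∃ (w : A) (c : σ → K), w ∈ V ∧ u i * v j = w + ∑ p, c p • l p := by
      intro i j
      obtain ⟨w, hw, s, hs, hws⟩ := Submodule.mem_sup.1 (huv i j)
      obtain ⟨c, hc⟩ := (Submodule.mem_span_range_iff_exists_fun K).1 hs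
      exact ⟨w, c, hw, by rw [hc, hws]⟩
    choose w c hw hwc using h2
    have h3 : D w c l = 0 := by
      simp only [D, ← hwc]
      ring
    have h4 := h w c hw h3
    have h5 : ∀ p, ∀ i j, c i j p = 0 := by
      intro p
      have hs : ∀ (i j : Fin 2) (s : A), (∑ x, c i j x • (l + Pi.single p s : σ → A) x) =
          (∑ x, c i j x • l x) + algebraMap K A (c i j p) * s := by
        intro i j s
        simp only [Pi.add_apply, smul_add, Finset.sum_add_distrib]
        congr 1
        rw [Finset.sum_eq_single p]
        · simp [Algebra.smul_def]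
        · intro b _ hb
          simp [hb]
        · simp
      have e1 := h4 (l + Pi.single p 1)
      have e2 := h4 (l + Pi.single p (-1))
      simp only [D, hs, ← add_assoc, ← hwc] at e1 e2
      have hdet : algebraMap K A (c 0 0 p) * algebraMap K A (c 1 1 p) =
          algebraMap K A (c 0 1 p) * algebraMap K A (c 1 0 p) := by
        have e3 : (2 : A) * (algebraMap K A (c 0 0 p) * algebraMap K A (c 1 1 p) -
          algebraMap K A (c 0 1 p) * algebraMap K A (c 1 0 p)) = 0 := by
          linear_combination e1 + e2
        have := (mul_eq_zero.1 e3).resolve_left two_ne_zero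
        linear_combination this
      apply det_zero hu hv (fun i j => c i j p)
      · have := hdet
        rw [← map_mul, ← map_mul] at this
        exact (algebraMap K A).injective this
      · simp only [Algebra.smul_def]
        linear_combination e1 - hdet
    intro i j
    have := hwc i j
    rw [Finset.sum_eq_zero (fun p _ => by rw [h5 p i j, zero_smul]), add_zero] at this
    rw [this]
    exact hw i j

end Pool.Agent.Y921.FE
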