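import Pool.Agent.Y916.Main
import Pool.Agent.Y921.FE.Core

/-!
# Four exponentials in short windows: number fields, and rational numbers
-/

set_option autoImplicit false

open Module

namespace Pool.Agent.Y921.FE

section Poly

variable {K : Type*} [Field K] [Algebra K ℂ] {τ r : ℕ}

open MvPolynomial in
/-- a linear form in the `w` and the `l` -/
noncomputable def Lw (a : Fin τ → K) (c : Fin r → K) : MvPolynomial (Fin τ ⊕ Fin r) K :=
  ∑ q, C (a q) * X (Sum.inl q) + ∑ p, C (c p) * X (Sum.inr p)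

open MvPolynomial in
theorem Lw_deg (a : Fin τ → K) (c : Fin r → K) : (Lw a c).totalDegree ≤ 1 := by
  unfold Lw
  refine (totalDegree_add _ _).trans (max_le ?_ ?_)
  · refine totalDegree_finsetSum_le fun p _ => ?_
    refine (totalDegree_mul _ _).trans ?_
    simp
  · refine totalDegree_finsetSum_le fun p _ => ?_
    refine (totalDegree_mul _ _).trans ?_
    simp

open MvPolynomial in
theorem Lw_aeval (a : Fin τ → K) (c : Fin r → K) (w : Fin τ → ℂ) (l : Fin r → ℂ) :
    aeval (Sum.elim w l) (Lw a c) = (∑ q, a q • w q) + ∑ p, c p • l p := by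
  simp [Lw, Algebra.smul_def]

open MvPolynomial in
theorem Lw_aeval2 (a : Fin τ → K) (c : Fin r → K) (w : Fin τ → ℂ) (x : Fin r → ℂ) :
    aeval x (aeval (Sum.elim (fun j => (C (w j) : MvPolynomial (Fin r) ℂ)) X) (Lw a c)) =
      (∑ q, a q • w q) + ∑ p, c p • x p := by
  simp only [Lw, map_add, map_sum, map_mul, aeval_X, Sum.elim_inl, Sum.elim_inr, algHom_C, Algebra.smul_def]
  simp only [aeval_C, Algebra.algebraMap_self, RingHom.id_apply]
  congr 1
  · refine Finset.sum_congr rfl fun q _ => ?_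
    rw [MvPolynomial.algebraMap_apply, aeval_C]
    rfl
  · refine Finset.sum_congr rfl fun q _ => ?_
    rw [MvPolynomial.algebraMap_apply, aeval_C]
    rfl

/-- the determinant polynomial -/
noncomputable def DW (a : Fin 2 → Fin 2 → Fin τ → K) (c : Fin 2 → Fin 2 → Fin r → K) :
    MvPolynomial (Fin τ ⊕ Fin r) K :=
  Lw (a 0 0) (c 0 0) * Lw (a 1 1) (c 1 1) - Lw (a 0 1) (c 0 1) * Lw (a 1 0) (c 1 0)

open MvPolynomial in
theorem DW_deg (a : Fin 2 → Fin 2 → Fin τ → K) (c : Fin 2 → Fin 2 → Fin r → K) : (DW a c).totalDegree ≤ 2 := by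
  unfold DW
  refine (totalDegree_sub _ _).trans (max_le ?_ ?_)
  · exact (totalDegree_mul _ _).trans (Nat.add_le_add (Lw_deg _ _) (Lw_deg _ _))
  · exact (totalDegree_mul _ _).trans (Nat.add_le_add (Lw_deg _ _) (Lw_deg _ _))

theorem DW_aeval (a : Fin 2 → Fin 2 → Fin τ → K) (c : Fin 2 → Fin 2 → Fin r → K) (w : Fin τ → ℂ) (l : Fin r → ℂ) :
    MvPolynomial.aeval (Sum.elim w l) (DW a c) = D (fun i j => ∑ q, a i j q • w q) c l := by
  simp only [DW, D, map_sub, map_mul, Lw_aeval]

theorem DW_aeval2 (a : Fin 2 → Fin 2 → Fin τ → K) (c : Fin 2 → Fin 2 → Fin r → K) (w : Fin τ → ℂ) (x : Fin r → ℂ)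
    (h : MvPolynomial.aeval (Sum.elim (fun j => (MvPolynomial.C (w j) : MvPolynomial (Fin r) ℂ)) MvPolynomial.X) (DW a c)
      = 0) : D (fun i j => ∑ q, a i j q • w q) c x = 0 := by
  have := congrArg (MvPolynomial.aeval x) h
  simp only [DW, map_sub, map_mul, Lw_aeval2, map_zero] at this
  exact this

end Poly

/-- a spanning family with `m` members -/
theorem exists_span {K A : Type*} [Field K] [Field A] [Algebra K A] (V : Submodule K A) [Module.Finite K V] (m : ℕ)
    (hm : finrank K V ≤ m) : ∃ w : Fin m → A, V ≤ Submodule.span K (Set.range w) := by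
  classical
  let b := Module.finBasis K V
  refine ⟨fun i => if h : (i : ℕ) < finrank K V then (b ⟨i, h⟩ : A) else 0, fun x hx => ?_⟩
  have h1 : ((∑ i, b.repr ⟨x, hx⟩ i • b i : V) : A) = x := congrArg Subtype.val (b.sum_repr ⟨x, hx⟩)
  rw [← h1, Submodule.coe_sum]
  refine Submodule.sum_mem _ fun i _ => ?_
  rw [Submodule.coe_smul]
  refine Submodule.smul_mem _ _ (Submodule.subset_span ?_)
  exact ⟨⟨i, i.2.trans_le hm⟩, by simp⟩

/-- the number of the form `exp l = t + β` -/
theorem log_diff (t : ℕ) (ht : 0 < t) (β l : ℂ) (h : Complex.exp l = t + β) :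
    ∃ n : ℤ, l - Complex.log (1 + β / t) = (Real.log t : ℂ) + n * (2 * Real.pi * Complex.I) := by
  have ht0 : (t : ℂ) ≠ 0 := by exact_mod_cast ht.ne'
  have e1 : (t : ℂ) + β = t * (1 + β / t) := by field_simp
  have hne : 1 + β / t ≠ 0 := by
    intro h0
    rw [e1, h0, mul_zero] at h
    exact Complex.exp_ne_zero _ h
  have e2 : Complex.exp l = Complex.exp ((Real.log t : ℂ) + Complex.log (1 + β / t)) := by
    rw [h, e1, Complex.exp_add, Complex.exp_log hne]
    congr 1
    rw [← Complex.ofReal_exp, Real.exp_log (by exact_mod_cast ht)]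
    simp
  obtain ⟨n, hn⟩ := Complex.exp_eq_exp_iff_exists_int.1 e2
  exact ⟨n, by rw [hn]; ring⟩

/-- **Windows over number fields.** -/
theorem window_field (r d m : ℕ) : ∃ E : ℕ, ∀ H t : ℕ, (H + 2) ^ E ≤ t →
    ∀ K : IntermediateField ℚ ℂ, FiniteDimensional ℚ K → finrank ℚ K ≤ d →
    ∀ V : Submodule K ℂ, Module.Finite K V → finrank K V ≤ m →
    ∃ S : Finset ℂ, S.card ≤ m + 2 ∧ ∀ β : Fin r → ℂ, Function.Injective β → (∀ i, β i ∉ S ∧ β i ≠ 0) →
      (∀ i, ∃ p : Polynomial ℤ, p ≠ 0 ∧ p.natDegree ≤ d ∧ (∀ j, |p.coeff j| ≤ (H : ℤ)) ∧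
        Polynomial.aeval (β i) p = 0) →
      ∀ l : Fin r → ℂ, (∀ i, Complex.exp (l i) = t + β i) → Good V l := by
  classical
  obtain ⟨E, hE⟩ := Pool.Agent.Y916.t_window r d 2 (m + 1 + 1)
  refine ⟨E, fun H t ht K hK hKd V hV hVm => ?_⟩
  obtain ⟨wV, hwV⟩ := exists_span V m hVm
  set w : Fin (m + 1 + 1) → ℂ := Fin.cons (Real.log t : ℂ) (Fin.cons (2 * Real.pi * Complex.I) wV) with hw
  obtain ⟨S, hS, h⟩ := hE H t ht K hK hKd w
  have ht0 : 0 < t := lt_of_lt_of_le (by positivity) ht
  have hVw : V ≤ Submodule.span K (Set.range w) := by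
    refine hwV.trans (Submodule.span_mono ?_)
    rintro _ ⟨i, rfl⟩
    exact ⟨i.succ.succ, by simp [hw]⟩
  refine ⟨S, hS, fun β hinj hβ hβa l hl => ?_⟩
  refine good_of V l fun w0 c hw0 h0 X => ?_
  have h2 : ∀ i j, ∃ a : Fin (m + 1 + 1) → K, ∑ q, a q • w q = w0 i j := fun i j =>
    (Submodule.mem_span_range_iff_exists_fun K).1 (hVw (hw0 i j))
  choose a ha using h2
  have e0 : w0 = fun i j => ∑ q, a i j q • w q := by
    funext i j
    exact (ha i j).symm
  rw [e0] at h0 ⊢
  apply DW_aeval2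
  refine h β hinj (fun i => ⟨(hβ i).1, (hβ i).2, hβa i⟩) l (fun i => ?_) (DW a c) (DW_deg a c) ?_
  · obtain ⟨n, hn⟩ := log_diff t ht0 (β i) (l i) (hl i)
    rw [hn]
    refine Submodule.add_mem _ (Submodule.subset_span (Set.mem_insert_of_mem _ ⟨0, by simp [hw]⟩)) ?_
    have e3 : (n : ℂ) * (2 * Real.pi * Complex.I) = (n : K) • (2 * Real.pi * Complex.I) := by
      simp [Algebra.smul_def]
    rw [e3]
    exact Submodule.smul_mem _ _ (Submodule.subset_span (Set.mem_insert_of_mem _ ⟨1, by simp [hw]⟩))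
  · rw [DW_aeval]
    exact h0

/-- **Windows of rational numbers.** -/
theorem window_rat (r m : ℕ) : ∃ E : ℕ, ∀ H t : ℕ, (H + 2) ^ E ≤ t →
    ∀ V : Submodule ℚ ℝ, Module.Finite ℚ V → finrank ℚ V ≤ m →
    ∃ S : Finset ℚ, S.card ≤ m + 1 ∧ ∀ β : Fin r → ℚ, Function.Injective β →
      (∀ i, β i ∉ S ∧ β i ≠ 0 ∧ |(β i).num| ≤ H ∧ (β i).den ≤ H) →
      Good V (fun i => Real.log (t + β i)) := by
  classical
  obtain ⟨E, hE⟩ := Pool.Agent.Y916.t_window r 1 2 (m + 1)
  refine ⟨E + 1, fun H t ht V hV hVm => ?_⟩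
  have ht0 : 0 < t := lt_of_lt_of_le (by positivity) ht
  have htH : H < t := by
    have : H + 2 ≤ (H + 2) ^ (E + 1) := Nat.le_self_pow (by omega) _
    omega
  have htE : (H + 2) ^ E ≤ t := le_trans (Nat.pow_le_pow_right (by omega) (Nat.le_succ _)) ht
  obtain ⟨wV, hwV⟩ := exists_span V m hVm
  set w : Fin (m + 1) → ℝ := Fin.cons (Real.log t) wV with hw
  obtain ⟨S, hS, h⟩ := hE H t htE (⊥ : IntermediateField ℚ ℂ) inferInstance (by rw [IntermediateField.finrank_bot])
    (fun q => (w q : ℂ))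
  have hVw : V ≤ Submodule.span ℚ (Set.range w) := by
    refine hwV.trans (Submodule.span_mono ?_)
    rintro _ ⟨i, rfl⟩
    exact ⟨i.succ, by simp [hw]⟩
  refine ⟨S.preimage (fun q : ℚ => (q : ℂ)) (Set.injOn_of_injective Rat.cast_injective), ?_, fun β hinj hβ => ?_⟩
  · refine le_trans ?_ hS
    refine Finset.card_le_card_of_injOn (fun q : ℚ => (q : ℂ)) ?_ (Set.injOn_of_injective Rat.cast_injective)
    intro q hq
    simpa using hq
  refine good_of V _ fun w0 c hw0 h0 X => ?_
  have h2 : ∀ i j, ∃ a : Fin (m + 1) → ℚ, ∑ q, a q • w q = w0 i j := fun i j =>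
    (Submodule.mem_span_range_iff_exists_fun ℚ).1 (hVw (hw0 i j))
  choose a ha using h2
  have e0 : w0 = fun i j => ∑ q, a i j q • w q := by
    funext i j
    exact (ha i j).symm
  -- transfer to the field `⊥`
  have key : ∀ x : Fin r → ℝ, ((D w0 c x : ℝ) : ℂ) =
      D (fun i j => ∑ q, (algebraMap ℚ (⊥ : IntermediateField ℚ ℂ) (a i j q)) • (w q : ℂ))
        (fun i j p => algebraMap ℚ (⊥ : IntermediateField ℚ ℂ) (c i j p)) (fun p => (x p : ℂ)) := by
    intro x
    rw [e0]
    simp only [D, Algebra.smul_def]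
    push_cast
    simp only [eq_ratCast, map_ratCast]
    rfl
  have h3 : D (fun i j => ∑ q, (algebraMap ℚ (⊥ : IntermediateField ℚ ℂ) (a i j q)) • (w q : ℂ))
        (fun i j p => algebraMap ℚ (⊥ : IntermediateField ℚ ℂ) (c i j p)) (fun p => (X p : ℂ)) = 0 := by
    apply DW_aeval2 (fun i j q => algebraMap ℚ (⊥ : IntermediateField ℚ ℂ) (a i j q))
    refine h (fun i => (β i : ℂ)) (fun i j hij => hinj (Rat.cast_injective hij)) (fun i => ⟨?_, ?_, ?_⟩)
      (fun i => ((Real.log (t + β i) : ℝ) : ℂ)) (fun i => ?_) _ (DW_deg _ _) ?_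
    · have := (hβ i).1
      simpa using this
    · exact_mod_cast (hβ i).2.1
    · refine ⟨Polynomial.C ((β i).den : ℤ) * Polynomial.X - Polynomial.C (β i).num, ?_, ?_, ?_, ?_⟩
      · intro h4
        have h5 := congrArg (fun p => Polynomial.coeff p 1) h4
        simp only [Polynomial.coeff_sub, Polynomial.coeff_C_mul, Polynomial.coeff_X_one, mul_one, Polynomial.coeff_zero,
          Polynomial.coeff_C] at h5
        simp at h5
      · refine (Polynomial.natDegree_sub_C).le.trans ?_
        exact (Polynomial.natDegree_C_mul_le _ _).trans Polynomial.natDegree_X_le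
      · intro j
        rw [Polynomial.coeff_sub, Polynomial.coeff_C_mul, Polynomial.coeff_X, Polynomial.coeff_C]
        rcases Nat.lt_trichotomy j 1 with hj | hj | hj
        · have hj0 : j = 0 := by omega
          subst hj0
          simpa using (hβ i).2.2.1
        · subst hj
          simpa using (by exact_mod_cast (hβ i).2.2.2 : ((β i).den : ℤ) ≤ H)
        · have h6 : ¬ (1 = j) := by omega
          have h7 : ¬ (j = 0) := by omega
          simp [h6, h7]
      · simp only [map_sub, map_mul, Polynomial.aeval_C, Polynomial.aeval_X]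
        have h8 : ((β i).den : ℂ) * (β i : ℂ) = ((β i).num : ℂ) := by
          have := Rat.den_mul_eq_num (β i)
          exact_mod_cast this
        simp only [algebraMap_int_eq, eq_intCast, Int.cast_natCast]
        rw [h8, sub_self]
    · have hβt : (0 : ℝ) < 1 + (β i : ℝ) / t := by
        have h4 : |(β i : ℝ)| ≤ H := by
          have h5 : |(β i : ℚ)| ≤ |((β i).num : ℚ)| := by
            conv_lhs => rw [← Rat.num_div_den (β i)]
            rw [abs_div]
            refine div_le_self (abs_nonneg _) ?_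
            rw [Nat.abs_cast]
            exact_mod_cast (β i).pos
          have h6 : |((β i).num : ℚ)| ≤ H := by exact_mod_cast (hβ i).2.2.1
          exact_mod_cast h5.trans h6
        have h5 : (H : ℝ) < t := by exact_mod_cast htH
        have h6 := (abs_le.1 h4).1
        have h7 : (0 : ℝ) < t := by exact_mod_cast ht0
        have : 1 + (β i : ℝ) / t = (t + β i) / t := by field_simp
        rw [this]
        apply div_pos _ h7
        linarith
      have h7 : (0 : ℝ) < t := by exact_mod_cast ht0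
      have e4 : Real.log (t + β i) = Real.log t + Real.log (1 + (β i : ℝ) / t) := by
        rw [← Real.log_mul h7.ne' hβt.ne']
        congr 1
        field_simp
      have e5 : Complex.log (1 + (β i : ℂ) / t) = ((Real.log (1 + (β i : ℝ) / t) : ℝ) : ℂ) := by
        rw [Complex.ofReal_log hβt.le]
        push_cast
        rfl
      rw [e5, e4]
      push_cast
      rw [add_sub_cancel_right]
      exact Submodule.subset_span (Set.mem_insert_of_mem _ ⟨0, by simp [hw]⟩)
    · rw [DW_aeval, ← key]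
      exact_mod_cast h0
  have h4 := key X
  rw [h3] at h4
  exact_mod_cast h4

end Pool.Agent.Y921.FE
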